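import Pool.Agent.Helper2.OD.IfaceR
import Pool.Agent.Helper22.QC.PotA

/-!
# The payoff of the potential `potU`
-/

namespace Pool.Agent.Helper2.QS

open Pool.Agent.Helper2.OC
open Pool.Agent.Helper22.QC

/-- the payoff in closed form -/
noncomputable def payQ (x y d : ℝ) : ℝ :=
  (32 * (1 - x) ^ 3 * y + 60 * (1 - x) ^ 2 * y ^ 2 + 288 * (1 - x) ^ 3 * (x - y) + 480 * (1 - x) ^ 2 * (x - y) * y + 264 * (1 - x) * (x - y) * y ^ 2 + 48 * (x - y) * y ^ 3 + 432 * (1 - x) ^ 2 * (x - y) ^ 2 + 480 * (1 - x) * (x - y) ^ 2 * y + 144 * (x - y) ^ 2 * y ^ 2 + 240 * (1 - x) * (x - y) ^ 3 + 144 * (x - y) ^ 3 * y + 48 * (x - y) ^ 4 +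
    d * (240 * ((1 - x) ^ 2) + 192 * ((1 - x) * (x - y)) + 288 * ((1 - x) * y) + 24 * ((x - y) ^ 2) + 96 * ((x - y) * y) + 72 * (y ^ 2)) - 72 * d ^ 2) / 264

theorem payQ_anti {a w y0 h δ : ℝ} (ha : 0 ≤ a) (hw : 0 ≤ w) (hy : 0 ≤ y0) (hh : 0 ≤ h)
    (hδ : δ ≤ a ^ 2) (hx : a = 1 - (w + y0 + h)) :
    payQ (w + y0 + h) (y0 + h) δ ≤ payQ (w + y0 + h) y0 δ := by
  have e : payQ (w + y0 + h) y0 δ - payQ (w + y0 + h) (y0 + h) δ =
      ((160 * a ^ 3 * h + 336 * a ^ 2 * w * h + 312 * a ^ 2 * y0 * h + 324 * a ^ 2 * h ^ 2 + 240 * a * w ^ 2 * h + 432 * a * w * y0 * h + 456 * a * w * h ^ 2 + 264 * a * y0 ^ 2 * h + 480 * a * y0 * h ^ 2 + 240 * a * h ^ 3 + 48 * w ^ 3 * h + 144 * w ^ 2 * y0 * h + 144 * w ^ 2 * h ^ 2 + 144 * w * y0 ^ 2 * h + 288 * w * y0 * h ^ 2 + 144 * w * h ^ 3 + 48 * y0 ^ 3 * h + 144 * y0 ^ 2 * h ^ 2 + 144 * y0 * h ^ 3 + 48 * h ^ 4) +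
      (a ^ 2 - δ) * (96 * a * h + 48 * w * h + 48 * y0 * h + 48 * h ^ 2)) / 264 := by
    unfold payQ
    rw [hx]
    ring
  have h1 : 0 ≤ 160 * a ^ 3 * h + 336 * a ^ 2 * w * h + 312 * a ^ 2 * y0 * h + 324 * a ^ 2 * h ^ 2 + 240 * a * w ^ 2 * h + 432 * a * w * y0 * h + 456 * a * w * h ^ 2 + 264 * a * y0 ^ 2 * h + 480 * a * y0 * h ^ 2 + 240 * a * h ^ 3 + 48 * w ^ 3 * h + 144 * w ^ 2 * y0 * h + 144 * w ^ 2 * h ^ 2 + 144 * w * y0 ^ 2 * h + 288 * w * y0 * h ^ 2 + 144 * w * h ^ 3 + 48 * y0 ^ 3 * h + 144 * y0 ^ 2 * h ^ 2 + 144 * y0 * h ^ 3 + 48 * h ^ 4 := by positivity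
  have h2 : 0 ≤ (a ^ 2 - δ) * (96 * a * h + 48 * w * h + 48 * y0 * h + 48 * h ^ 2) :=
    mul_nonneg (by linarith) (by positivity)
  have h3 := div_nonneg (add_nonneg h1 h2) (show (0:ℝ) ≤ 264 by norm_num)
  linarith

theorem payQ_le {a w y δ : ℝ} (ha : 0 ≤ a) (hw : 0 ≤ w) (hy : 0 ≤ y) (hδ : 0 ≤ δ)
    (hx : a = 1 - (w + y)) : payQ (w + y) y δ ≤ 288 * (w + y) + 288 * δ := by
  have h1 : 0 ≤ 256 * a ^ 3 * y + 384 * a ^ 2 * w * y + 372 * a ^ 2 * y ^ 2 + 48 * a * w ^ 3 + 384 * a * w ^ 2 * y + 600 * a * w * y ^ 2 + 288 * a * y ^ 3 + 24 * w ^ 4 + 144 * w ^ 3 * y + 288 * w ^ 2 * y ^ 2 + 240 * w * y ^ 3 + 72 * y ^ 4 := by positivity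
  have h2 : 0 ≤ 48 * a ^ 2 + 384 * a * w + 288 * a * y + 264 * w ^ 2 + 480 * w * y + 216 * y ^ 2 := by positivity
  have h5 : 0 ≤ δ * (48 * a ^ 2 + 384 * a * w + 288 * a * y + 264 * w ^ 2 + 480 * w * y + 216 * y ^ 2) := mul_nonneg hδ h2
  have h3 : 0 ≤ δ ^ 2 := by positivity
  have hxx : 0 ≤ w + y := by positivity
  have h4 : (1 - a ^ 4) ≤ 4 * (w + y) := by
    have e : 4 * (w + y) - (1 - a ^ 4) = (w + y) ^ 2 * (2 + (2 - (w + y)) ^ 2) := by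
      rw [hx]; ring
    have : 0 ≤ (w + y) ^ 2 * (2 + (2 - (w + y)) ^ 2) := by positivity
    linarith
  have e : payQ (w + y) y δ = (72 * (1 - a ^ 4) - (256 * a ^ 3 * y + 384 * a ^ 2 * w * y + 372 * a ^ 2 * y ^ 2 + 48 * a * w ^ 3 + 384 * a * w ^ 2 * y + 600 * a * w * y ^ 2 + 288 * a * y ^ 3 + 24 * w ^ 4 + 144 * w ^ 3 * y + 288 * w ^ 2 * y ^ 2 + 240 * w * y ^ 3 + 72 * y ^ 4) +
      (288 * δ - δ * (48 * a ^ 2 + 384 * a * w + 288 * a * y + 264 * w ^ 2 + 480 * w * y + 216 * y ^ 2)) - 72 * δ ^ 2) / 264 := by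
    unfold payQ
    rw [hx]
    ring
  rw [e, div_le_iff₀ (by norm_num)]
  have h6 := mul_le_mul_of_nonneg_left h4 (show (0:ℝ) ≤ 72 by norm_num)
  nlinarith

theorem payOK_payQ : PayOK payQ := by
  refine ⟨?_, ⟨288, by norm_num, ?_⟩⟩
  · intro x y0 y δ h0 h1 h2 h3 _ _ hδ1
    have h := payQ_anti (a := 1 - x) (w := x - y) (y0 := y0) (h := y - y0) (δ := δ) (by linarith)
      (by linarith) h0 (by linarith) hδ1 (by ring)
    have e1 : x - y + y0 + (y - y0) = x := by ring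
    have e2 : y0 + (y - y0) = y := by ring
    rwa [e1, e2] at h
  · intro x y δ h0 h1 h2 hδ _
    have h := payQ_le (a := 1 - x) (w := x - y) (y := y) (δ := δ) (by linarith)
      (by linarith) h0 hδ (by ring)
    have e1 : x - y + y = x := by ring
    rw [e1] at h
    nlinarith

theorem payoff_eq_payQ : payoff (gR potU 264) (ΛR potU 264) (12 * (6 : ℝ) / 264) = payQ := by
  funext x y d
  simp only [payoff, Fin.sum_univ_three, gR, ΛR, lamK, lamBar, potU]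
  simp (config := { decide := true }) only [Matrix.cons_val_zero, Matrix.cons_val_one,
    Matrix.cons_val_two, Matrix.head_cons, Matrix.tail_cons, if_true, if_false, Matrix.cons_val,
    List.getD_cons_zero, List.getD_cons_succ, List.getD_nil, add_zero, zero_add, max_def]
  norm_num
  unfold payQ
  ring

end Pool.Agent.Helper2.QS
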