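import Pool.Agent.Helper2.PB.Scal
import Pool.Agent.Helper2.QS.PayQ

/-!
# The scalar certificate of the payoff `payQ`
-/

namespace Pool.Agent.Helper2.QS.CpayQ

open Pool.Agent.Helper2.OC Pool.Agent.Helper2.PB
open Pool.Agent.Helper2.OC.Bern (add2 smul2)

def pw3 (p : P3) : ℕ → P3
  | 0 => vc 1
  | n + 1 => mul3 p (pw3 p n)

theorem ev3_pw3 (p : P3) (n : ℕ) (z t r : ℝ) : ev3 (pw3 p n) z t r = ev3 p z t r ^ n := by
  induction n with
  | zero => simp [pw3, ev3_vc]
  | succ n ih => rw [pw3, ev3_mul, ih, pow_succ, mul_comm]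

def pa : P3 := add3 (vc 1) (smul3 (-1) px)
def pom : P3 := add3 (vc 1) (smul3 (-1) pr)
def py : P3 := mul3 px pr
def pw' : P3 := mul3 px pom
def pd : P3 := mul3 (add3 (vc 1) (smul3 (-1) vt)) (add3 pm (smul3 (-1) px))
def pQ1 : P3 := (add3 (smul3 288 (pw3 pa 3)) (add3 (smul3 480 (mul3 (pw3 pa 2) py)) (add3 (smul3 264 (mul3 pa (pw3 py 2))) (add3 (smul3 48 (pw3 py 3)) (add3 (smul3 432 (mul3 (pw3 pa 2) pw')) (add3 (smul3 480 (mul3 pa (mul3 pw' py))) (add3 (smul3 144 (mul3 pw' (pw3 py 2))) (add3 (smul3 240 (mul3 pa (pw3 pw' 2))) (add3 (smul3 144 (mul3 (pw3 pw' 2) py)) (smul3 48 (pw3 pw' 3)))))))))))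
def pQ2 : P3 := (add3 (smul3 32 (pw3 pa 3)) (smul3 60 (mul3 (pw3 pa 2) py)))
def pLM : P3 := (add3 (smul3 240 (pw3 pa 2)) (add3 (smul3 192 (mul3 pa pw')) (add3 (smul3 288 (mul3 pa py)) (add3 (smul3 24 (pw3 pw' 2)) (add3 (smul3 96 (mul3 pw' py)) (smul3 72 (pw3 py 2)))))))

/-- `8 * (33 * pay) / z` -/
def pz : P3 := add3 (add3 (mul3 vt (add3 (mul3 pom pQ1) (mul3 pr pQ2))) (mul3 pd pLM))
  (smul3 (-72) (mul3 vz (mul3 pd pd)))

theorem pz_spec (z t r : ℝ) : ev3 pz z t r * z =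
    8 * (33 * payQ (t * z) (t * z * (r * (t * z))) (z * (2 - z) - (2 * (t * z) - (t * z) ^ 2))) := by
  simp only [pz, pQ1, pQ2, pLM, pa, pom, py, pw', pd, pm, px, pr, ev3_add, ev3_smul, ev3_mul,
    ev3_pw3, ev3_vz, ev3_vt, ev3_vr, ev3_vc, payQ]
  push_cast
  ring

def cA : List ℤ := [34405103, -24528504, 76364478, -198045896, 277663527, -200150448, 58307537]
def cB : List ℤ := [13641890, 123377695, -506901228, 764095011, 260593606, -2180630747, 2384244219, -842402841]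
def cH : List (List ℤ) := [[-280670222, 851989918, 308784405, -7100435017, 15886082067, -14543880964, 4869656386], [-27993551, 1593079061, -5219762913, 5994919111, -2338390655], [18350801, -106715111, 88121513]]
def cS : ℤ := 1048576

def F0 : P3 := FT cA cB cH cS pz

def F : P3 := F0.take 18

def q : Par := ⟨96, 17, 16, 8, 77⟩

theorem q_ok : q.OK := ⟨by decide, by decide, by decide⟩

def W : Wts q where
  w1 := [680680, 40040, 5005, 1001, 286, 110, 55, 35, 28, 28, 35, 55, 110, 286, 1001, 5005, 40040, 680680]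
  w2 := [720720, 45045, 6006, 1287, 396, 165, 90, 63, 56, 63, 90, 165, 396, 1287, 6006, 45045, 720720]
  w3 := [280, 35, 10, 5, 4, 5, 10, 35, 280]
  L1 := 680680
  L2 := 720720
  L3 := 280
  h1 := by norm_num [wOK, q, Nat.choose]
  h2 := by norm_num [wOK, q, Nat.choose]
  h3 := by norm_num [wOK, q, Nat.choose]
  l1 := rfl
  l2 := rfl
  l3 := rfl
  p1 := by norm_num
  p2 := by norm_num
  p3 := by norm_num

def allOK : Bool := (isZ (F0.drop 18) && lenOK q F) && (bdd (2 ^ 77) (tens W F) &&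
  chkP q skp 18 (pack q (tens W F)))

theorem allOK_true : allOK = true := by decide +kernel

theorem dyn_pos (z t r : ℝ) (h1 : 0 ≤ z) (h1' : z ≤ 1) (h2 : 0 ≤ t) (h2' : t ≤ 1) (h3 : 0 ≤ r)
    (h3' : r ≤ 1) (hr : r * (4 - 3 * (t * z)) ≤ 1) : 0 ≤ ev3 (FT cA cB cH cS pz) z t r := by
  have h := allOK_true
  unfold allOK at h
  rw [Bool.and_eq_true, Bool.and_eq_true, Bool.and_eq_true] at h
  rw [show FT cA cB cH cS pz = F0 from rfl, ← ev3_take 18 _ h.1.1]
  exact nonneg_of_tests q_ok W skp _ skp_ok F 18 _ h.1.2 h.2.1 rfl h.2.2 z t r h1 h1' h2 h2' h3 h3' hr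

def M1 : List (List ℤ) := hom 5 (der (rows cA cB cH))
def M2 : List (List ℤ) := hom 5 (rows cA cB cH)
def M3 : List (List ℤ) := hom 5 (add2 [[34290913]] (smul2 (-1) (rows cA cB cH)))

theorem M1_ok : Bern.chk 24 5 10 true M1 = true := by decide +kernel
theorem M2_ok : Bern.chk 24 5 10 true M2 = true := by decide +kernel
theorem M3_ok : Bern.chk 24 5 10 true M3 = true := by decide +kernel

theorem cert0 : CertR (fun x y d => 33 * payQ x y d) (PF cA cB cH cS) (34290913 / 1048576) := by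
  refine certR_of (pz := pz) (n := 5) (VI := 34290913) (by norm_num [cS]) pz_spec dyn_pos (by decide +kernel)
    (by decide +kernel) ?_ ?_ ?_ ?_ (by decide +kernel)
  · exact fun x s h1 h2 h3 h4 => Bern.chk_sound 24 5 10 true _ M1_ok x s h1 h2 h3 h4
  · exact fun x s h1 h2 h3 h4 => Bern.chk_sound 24 5 10 true _ M2_ok x s h1 h2 h3 h4
  · norm_num [cS]
  · exact fun x s h1 h2 h3 h4 => Bern.chk_sound 24 5 10 true _ M3_ok x s h1 h2 h3 h4

/-- scaling of certificates -/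
theorem certR_scale {pay : ℝ → ℝ → ℝ → ℝ} {P : ℝ → ℝ → ℝ} {V c : ℝ} (hc : 0 < c)
    (h : CertR (fun x y d => c * pay x y d) P V) : CertR pay (fun x r => P x r / c) (V / c) where
  zero := by rw [h.zero, zero_div]
  lip := by
    obtain ⟨L, hL⟩ := h.lip
    refine ⟨L / c, fun x r x' r' a1 a2 a3 a4 a5 a6 a7 a8 => ?_⟩
    have := hL x r x' r' a1 a2 a3 a4 a5 a6 a7 a8
    rw [← sub_div, abs_div, abs_of_pos hc, div_mul_eq_mul_div]
    exact div_le_div_of_nonneg_right this hc.le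
  mono := fun x r r' a1 a2 a3 a4 a5 => div_le_div_of_nonneg_right (h.mono x r r' a1 a2 a3 a4 a5) hc.le
  nonneg := fun x r a1 a2 a3 a4 => div_nonneg (h.nonneg x r a1 a2 a3 a4) hc.le
  le := fun x r a1 a2 a3 a4 => div_le_div_of_nonneg_right (h.le x r a1 a2 a3 a4) hc.le
  dyn := by
    intro x r x' a1 a2 a3 a4 a5 a6
    have h1 := h.dyn x r x' a1 a2 a3 a4 a5 a6
    have h2 : P x r / c + pay x (x * r) (x' - (2 * x - x ^ 2)) =
        (P x r + c * pay x (x * r) (x' - (2 * x - x ^ 2))) / c := by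
      field_simp
    rw [h2]
    exact div_le_div_of_nonneg_right h1 hc.le

theorem cert : CertR payQ (fun x r => PF cA cB cH cS x r / 33) (34290913 / 1048576 / 33) :=
  certR_scale (by norm_num) cert0

end Pool.Agent.Helper2.QS.CpayQ
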