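import Pool.Agent.Helper2.QS.CertQ
import Pool.Agent.Helper22.GlueR

/-!
# `Cert4` for the potential `potU`, value `1 / 1.0091`
-/

namespace Pool.Agent.Helper2.QS

open Pool.Agent.Helper2.OC
open Pool.Agent.Helper22.QC

theorem certQC : ∃ G : ℝ → ℝ → ℝ, ∃ V : ℝ, 0 < V ∧ 1.0091 * V < 1 ∧
    Cert4 (payoff (gR potU 264) (ΛR potU 264) (12 * (6 : ℝ) / 264)) G V := by
  obtain ⟨G, hG⟩ := glue payQ _ _ (by norm_num) payOK_payQ CpayQ.cert (1 / 1000000) (by norm_num)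
  rw [← payoff_eq_payQ] at hG
  exact ⟨G, _, by norm_num, by norm_num, hG⟩

theorem gR_zero : gR potU 264 0 0 0 0 = 0 := by
  simp [gR, potU]

/-- the four-sample inequality of the potential gives `f(n) ≥ 1.0091 log₂ n - C` -/
theorem bound_QC {k : Comp → Comp → ℝ}
    (h4 : FourIneq (gR potU 264) (ΛR potU 264) (12 * (6 : ℝ) / 264) k) {B : ℝ}
    (hk : ∀ p q, |k p q| ≤ B) :
    ∃ C : ℝ, ∀ n : ℕ, 1 ≤ n → ENNReal.ofReal (1.0091 * Real.logb 2 n - C) ≤ f n := by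
  obtain ⟨G, V, hV, hsV, hG⟩ := certQC
  exact four_bound h4 gR_zero hk hG hV (by norm_num) hsV

end Pool.Agent.Helper2.QS
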